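import Mathlib
import Pool.Agent.helper49.GP.Main2

set_option autoImplicit false

namespace Pool.Agent.Results.MP_33a656_nt.GeometricExponents

open Pool.Agent.helper49.GP

/-- Let `k = 3` (or `k ≥ 4` under the hypothesis `r_k(L) = o(L)`, Szemeredi's theorem) and let
`dens k s = (s - 1) ∑_{m ≥ 1} s^(-u_m)` be the number of Q1. For `s ≥ 2`, `p > q ≥ 1`, `J ≥ 0` the numbers
`1` and `dens k (s^e)`, `e = q^(J-n) p^n`, `n = 0, ..., J`, are linearly independent over `ℚ`, and
fewer than `[K : ℚ]` of these `J + 1` numbers `dens k (s^e)` lie in a given real number field `K`. -/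
theorem result : ∀ k : ℕ, 3 ≤ k →
    (k = 3 ∨ Filter.Tendsto (fun L : ℕ => (rk k L : ℝ) / L) Filter.atTop (nhds 0)) →
    ∀ s p q J : ℕ, 2 ≤ s → 1 ≤ q → q < p →
      LinearIndependent ℚ (fun o : Option (Fin (J + 1)) => o.elim (1 : ℝ)
        (fun n => dens k (s ^ (q ^ (J - n) * p ^ (n : ℕ))))) ∧
      ∀ (K : IntermediateField ℚ ℝ) [FiniteDimensional ℚ K],
        {n : Fin (J + 1) | dens k (s ^ (q ^ (J - n) * p ^ (n : ℕ))) ∈ K}.ncard <
          Module.finrank ℚ K := by
  intro k hk h s p q J hs hq hqp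
  have h1 := main2 k hk h s p q J hs hq hqp
  exact ⟨h1, fun K _ => field_count J _ h1 K⟩

end Pool.Agent.Results.MP_33a656_nt.GeometricExponents
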