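import Pool.Agent.helper18.HG.All

/-!
# MP_33a656_nt: the heights of the densities `(s-1) ∑ s^{-u_m}`

For all `d`, `C`, for all but finitely many pairs `(k, s)` with `k ≥ 3`, `s ≥ 2`, the number `(s-1) ∑ s^{-u_m}` is not a root
of a nonzero integer polynomial of degree `≤ d` with coefficients of absolute value `≤ (k s)^C`.
-/

set_option autoImplicit false

namespace Pool.Agent.Results.MP_33a656_nt.UnboundedHeights

open Finset

/-- The finite set `A` contains no `k`-term arithmetic progression with nonzero difference. -/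
def APFree (k : ℕ) (A : Finset ℕ) : Prop := ∀ a q : ℕ, 1 ≤ q → ∃ j < k, a + j * q ∉ A

/-- `r_k(L)`: the largest size of a subset of `{0, ..., L-1}` without a `k`-term arithmetic progression. -/
noncomputable def r (k L : ℕ) : ℕ := sSup {n | ∃ A : Finset ℕ, A ⊆ range L ∧ APFree k A ∧ A.card = n}

/-- `u_m = min {L ≥ 1 : r_k(L) = m}`. -/
noncomputable def u (k m : ℕ) : ℕ := sInf {L | 1 ≤ L ∧ r k L = m}

/-- The number `(s-1) ∑_{m ≥ 1} s^{-u_m}`. -/
noncomputable def density (k s : ℕ) : ℝ := ((s : ℝ) - 1) * ∑' m : ℕ, ((s : ℝ) ^ u k (m + 1))⁻¹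

/-- For all but finitely many pairs `(k, s)` the number `density k s` is not a root of a nonzero integer polynomial of degree
`≤ d` with coefficients of absolute value `≤ (k s)^C`. -/
theorem result (d C : ℕ) :
    {q : ℕ × ℕ | 3 ≤ q.1 ∧ 2 ≤ q.2 ∧ ∃ P : Polynomial ℤ, P ≠ 0 ∧ P.natDegree ≤ d ∧
      (∀ i, |P.coeff i| ≤ ((q.1 * q.2) ^ C : ℕ)) ∧ Polynomial.aeval (density q.1 q.2) P = 0}.Finite :=
  Pool.Agent.helper18.HG.All.final d C

end Pool.Agent.Results.MP_33a656_nt.UnboundedHeights
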